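import Mathlib
import Pool.Agent.Lib.MP_6bc78b_nt.HardyDefs

/-! Project MS (MP_6bc78b_nt): simple zeros of zeta under RH, mollifier + pair correlation.
All definitions shared by the parts. -/

set_option autoImplicit false

open Complex Filter Topology ArithmeticFunction

namespace Pool.Agent.Lib.MP_6bc78b_nt.MS

/-- `e(x) = exp(2 pi i x)`. -/
noncomputable def ee (x : ℝ) : ℂ := Complex.exp (2 * Real.pi * x * I)

/-- Width of the weight, `D = T / (log T)^(2/3)`. -/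
noncomputable def DD (T : ℝ) : ℝ := T / Real.log T ^ (2 / 3 : ℝ)

/-- The entire weight; `WW T (1/2 + i t) = exp (-(t - T)^2 / D^2)`. -/
noncomputable def WW (T : ℝ) (s : ℂ) : ℂ :=
  Complex.exp ((s - 1 / 2 - T * I) ^ 2 / (DD T : ℂ) ^ 2)

/-- The weight of the kernel sums, `G(r) = exp (-(2 pi r - T)^2 / D^2)`. -/
noncomputable def GG (T r : ℝ) : ℝ := Real.exp (-(2 * Real.pi * r - T) ^ 2 / DD T ^ 2)

/-- `∫ G = D / (2 sqrt pi)`; the number of zeros, weighted by `WW T`, is `~ cG T * log T`. -/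
noncomputable def cG (T : ℝ) : ℝ := DD T / (2 * Real.sqrt Real.pi)

/-- The mollifier polynomial. -/
def PP (c1 c2 x : ℝ) : ℝ := c1 * x + c2 * x ^ 2

/-- Mollifier coefficients: `μ(n) P(log(y/n)/log y)` for `n ≤ y = T^th`. -/
noncomputable def betf (th c1 c2 T : ℝ) (n : ℕ) : ℝ :=
  if (n : ℝ) ≤ T ^ th then
    ((ArithmeticFunction.moebius n : ℤ) : ℝ) * PP c1 c2 (1 - Real.log n / (th * Real.log T))
  else 0

/-- Mollifier coefficients as an arithmetic function. -/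
noncomputable def bet (th c1 c2 T : ℝ) : ArithmeticFunction ℝ :=
  ⟨betf th c1 c2 T, by simp [betf]⟩

/-- Prime coefficients: `Λ(n) (1 - log n / L₁) / L₁` for `n ≤ T^lam`, where `L₁ = lam log T`. -/
noncomputable def bbf (lam T : ℝ) (n : ℕ) : ℝ :=
  if (n : ℝ) ≤ T ^ lam then
    ArithmeticFunction.vonMangoldt n * (1 - Real.log n / (lam * Real.log T)) /
      (lam * Real.log T)
  else 0

/-- Prime coefficients as an arithmetic function. -/
noncomputable def bb (lam T : ℝ) : ArithmeticFunction ℝ :=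
  ⟨bbf lam T, by simp [bbf]⟩

/-- `1` on the positive integers, as a real arithmetic function. -/
noncomputable def one : ArithmeticFunction ℝ := ((ArithmeticFunction.zeta : ArithmeticFunction ℕ) : ArithmeticFunction ℝ)

/-- `log`, as a real arithmetic function. -/
noncomputable def lg : ArithmeticFunction ℝ := ArithmeticFunction.log

/-- `Λ`. -/
noncomputable def La : ArithmeticFunction ℝ := ArithmeticFunction.vonMangoldt

/-- Dirichlet polynomial with coefficients `f`, over `n ≤ x`. -/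
noncomputable def dpoly (f : ArithmeticFunction ℝ) (x : ℝ) (s : ℂ) : ℂ :=
  ∑ n ∈ Finset.Icc 1 ⌊x⌋₊, (f n : ℂ) * (n : ℂ) ^ (-s)

/-- The mollifier `M(s)`. -/
noncomputable def MM (th c1 c2 T : ℝ) (s : ℂ) : ℂ := dpoly (bet th c1 c2 T) (T ^ th) s

/-- The prime polynomial `B(s)`. -/
noncomputable def BB (lam T : ℝ) (s : ℂ) : ℂ := dpoly (bb lam T) (T ^ lam) s

/-- `v(s) = ζ'(s) M(s)`. -/
noncomputable def vv (th c1 c2 T : ℝ) (s : ℂ) : ℂ := deriv riemannZeta s * MM th c1 c2 T s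

/-- Multiplicity of `1/2 + i γ` as a zero of zeta. -/
noncomputable def mz (γ : ℝ) : ℕ := analyticOrderNatAt riemannZeta (1 / 2 + γ * I)

/-- The ordinates of the zeros on the critical line, between `T/2` and `2T`. -/
def zset (T : ℝ) : Set ℝ := {γ : ℝ | T / 2 < γ ∧ γ < 2 * T ∧ riemannZeta (1 / 2 + γ * I) = 0}

/-- Weighted sum over the zeros, with multiplicity. -/
noncomputable def ZS (T : ℝ) (F : ℂ → ℂ) : ℂ :=
  ∑ᶠ γ ∈ zset T, (mz γ : ℂ) * WW T (1 / 2 + γ * I) * F (1 / 2 + γ * I)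

/-- `S_j(α) = ∑_m β(m)/m ∑_n α(n) (log (n/m))^j G(n/m) e(-n/m)`. -/
noncomputable def Ssum (th c1 c2 T : ℝ) (j : ℕ) (α : ArithmeticFunction ℝ) : ℂ :=
  ∑ m ∈ Finset.Icc 1 ⌊T ^ th⌋₊, ((bet th c1 c2 T m / m : ℝ) : ℂ) *
    ∑' n : ℕ, ((α n * Real.log ((n : ℝ) / m) ^ j * GG T ((n : ℝ) / m) : ℝ) : ℂ) *
      ee (-((n : ℝ) / m))

/-- Ramanujan sum `c_m(n) = ∑_{d | (m,n)} d μ(m/d)`. -/
noncomputable def ramC (m n : ℕ) : ℝ :=
  ∑ d ∈ (Nat.gcd m n).divisors, (d : ℝ) * ((ArithmeticFunction.moebius (m / d) : ℤ) : ℝ)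

/-- The principal part of `S_j(α)`: `e(-n/m)` is replaced by `c_m(n)/φ(m)`. -/
noncomputable def Psum (th c1 c2 T : ℝ) (j : ℕ) (α : ArithmeticFunction ℝ) : ℝ :=
  ∑ m ∈ Finset.Icc 1 ⌊T ^ th⌋₊, (bet th c1 c2 T m / (m * (Nat.totient m : ℝ))) *
    ∑' n : ℕ, α n * ramC m n * Real.log ((n : ℝ) / m) ^ j * GG T ((n : ℝ) / m)

/-! Limit constants. -/

/-- `E v = P(1)/2 + th ∫ P`. -/
noncomputable def m1 (th c1 c2 : ℝ) : ℝ := (c1 + c2) / 2 + th * (c1 / 2 + c2 / 3)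

/-- `E |v|^2 = A^2 + (P(1)^2 + ∫ P'^2 / th)/12`. -/
noncomputable def m2 (th c1 c2 : ℝ) : ℝ :=
  m1 th c1 c2 ^ 2 + ((c1 + c2) ^ 2 + (c1 ^ 2 + 2 * c1 * c2 + 4 / 3 * c2 ^ 2) / th) / 12

/-- `E (v conj B) = - A lam/6 + (1/lam) ∫_0^lam (1 - U/lam) x(U) dU`. -/
noncomputable def m3 (th lam c1 c2 : ℝ) : ℝ :=
  - m1 th c1 c2 * lam / 6 - (c1 + c2) * (lam / 12 + lam ^ 2 / 24) + (c1 + c2) / 4
    + th * (c1 / 2 + c2 / 3) / 2
    - (th / lam) * ((c1 / 2 + c2 / 3) / 2 + th * (c1 / 6 + c2 / 12)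
      - (th / lam) * ((c1 / 6 + c2 / 12) / 2 + th * (c1 / 24 + c2 / 60)))

end Pool.Agent.Lib.MP_6bc78b_nt.MS
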