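import Pool.Agent.Lib.MP_6bc78b_nt.MS.Defs

/-! Project MS (MP_6bc78b_nt): the statements that join the parts. -/

set_option autoImplicit false

open Complex Filter Topology ArithmeticFunction

namespace Pool.Agent.Lib.MP_6bc78b_nt.MS

/-! ## Part I (from zeros to kernel sums), under RH -/

/-- (I1) `∑_γ W ~ cG log T`. -/
def ZNStatement : Prop :=
  Tendsto (fun T : ℝ => (ZS T (fun _ => 1)).re / (cG T * Real.log T)) atTop (𝓝 1)

/-- (I2) `∑_γ W v = - conj [S_0(Λ*log) - 2 S_1(log) + S_2(1)] + o(T)`. -/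
def ZVStatement : Prop := ∀ th c1 c2 : ℝ, 0 < th → th < 1 / 2 →
  Tendsto (fun T : ℝ => (ZS T (vv th c1 c2 T) +
    (starRingEnd ℂ) (Ssum th c1 c2 T 0 (La * lg) - 2 * Ssum th c1 c2 T 1 lg
      + Ssum th c1 c2 T 2 one)) / T) atTop (𝓝 0)

/-- (I3) `∑_γ W v conj(B) = - conj [S_0(Λ*log*b) - 2 S_1(log*b) + S_2(1*b)] + o(T)`. -/
def ZVBStatement : Prop := ∀ th lam c1 c2 : ℝ, 0 < th → th < 1 / 2 → 0 < lam → lam < 1 →
  Tendsto (fun T : ℝ => (ZS T (fun s => vv th c1 c2 T s * (starRingEnd ℂ) (BB lam T s)) +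
    (starRingEnd ℂ) (Ssum th c1 c2 T 0 (La * lg * bb lam T)
      - 2 * Ssum th c1 c2 T 1 (lg * bb lam T) + Ssum th c1 c2 T 2 (one * bb lam T))) / T)
    atTop (𝓝 0)

/-- (I4) `∑_γ W |v|^2 = Re [2 S_0(Λ*log*log*β) - 3 S_1(log*log*β) + S_2(1*log*β)] + o(T)`. -/
def ZVVStatement : Prop := ∀ th c1 c2 : ℝ, 0 < th → th < 1 / 2 →
  Tendsto (fun T : ℝ =>
    ((ZS T (fun s => vv th c1 c2 T s * (starRingEnd ℂ) (vv th c1 c2 T s))).re -
    (2 * Ssum th c1 c2 T 0 (La * lg * lg * bet th c1 c2 T)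
      - 3 * Ssum th c1 c2 T 1 (lg * lg * bet th c1 c2 T)
      + Ssum th c1 c2 T 2 (one * lg * bet th c1 c2 T)).re) / T) atTop (𝓝 0)

/-- (I5) `E B = - lam/6`. -/
def ZBStatement : Prop := ∀ lam : ℝ, 0 < lam → lam < 1 →
  Tendsto (fun T : ℝ => (ZS T (BB lam T)).re / (cG T * Real.log T)) atTop (𝓝 (-(lam / 6)))

/-- (I6) `E |B|^2 = 1/12`. -/
def ZBBStatement : Prop := ∀ lam : ℝ, 0 < lam → lam < 1 →
  Tendsto (fun T : ℝ => (ZS T (fun s => BB lam T s * (starRingEnd ℂ) (BB lam T s))).re /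
    (cG T * Real.log T)) atTop (𝓝 (1 / 12))

/-- (I7) pointwise: `Re B(1/2 + iγ) ≤ 1/(2 lam) - m(γ)/2 + ε` at every zero. -/
def PTStatement : Prop := ∀ lam ε : ℝ, 0 < lam → lam < 1 → 0 < ε →
  ∀ᶠ T : ℝ in atTop, ∀ γ ∈ zset T,
    (BB lam T (1 / 2 + γ * I)).re ≤ 1 / (2 * lam) - (mz γ : ℝ) / 2 + ε

/-! ## Part II (the non-principal part is negligible), unconditional -/

/-- The arithmetic functions that occur: `α = f * h1 * h2 * c`. -/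
def IsAl (th lam c1 c2 : ℝ) (α : ℝ → ArithmeticFunction ℝ) : Prop :=
  ∃ f h1 h2 : ArithmeticFunction ℝ, (f = 1 ∨ f = La) ∧ (h1 = one ∨ h1 = lg) ∧
    (h2 = 1 ∨ h2 = one ∨ h2 = lg) ∧
    ((∀ T, α T = f * h1 * h2) ∨ (∀ T, α T = f * h1 * h2 * bet th c1 c2 T) ∨
      (∀ T, α T = f * h1 * h2 * bb lam T))

/-- (II) `S_j(α) = P_j(α) + o(T)`. -/
def NPStatement : Prop := ∀ th lam c1 c2 : ℝ, 0 < th → th < 1 / 2 → 0 < lam → lam < 1 →
  ∀ α : ℝ → ArithmeticFunction ℝ, IsAl th lam c1 c2 α → ∀ j : ℕ,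
    Tendsto (fun T : ℝ => (Ssum th c1 c2 T j (α T) - (Psum th c1 c2 T j (α T) : ℂ)) / T)
      atTop (𝓝 0)

/-! ## Part III (the principal part), unconditional up to bounds for zeta; RH may be used -/

/-- (III1) -/
def LVStatement : Prop := ∀ th c1 c2 : ℝ, 0 < th → th < 1 / 2 →
  Tendsto (fun T : ℝ => (Psum th c1 c2 T 0 (La * lg) - 2 * Psum th c1 c2 T 1 lg
    + Psum th c1 c2 T 2 one) / (cG T * Real.log T ^ 2)) atTop (𝓝 (- m1 th c1 c2))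

/-- (III2) -/
def LVBStatement : Prop := ∀ th lam c1 c2 : ℝ, 0 < th → th < 1 / 2 → th < lam → lam < 1 →
  Tendsto (fun T : ℝ => (Psum th c1 c2 T 0 (La * lg * bb lam T)
      - 2 * Psum th c1 c2 T 1 (lg * bb lam T) + Psum th c1 c2 T 2 (one * bb lam T)) /
    (cG T * Real.log T ^ 2)) atTop (𝓝 (- m3 th lam c1 c2))

/-- (III3) -/
def LVVStatement : Prop := ∀ th c1 c2 : ℝ, 0 < th → th < 1 / 2 →
  Tendsto (fun T : ℝ => (2 * Psum th c1 c2 T 0 (La * lg * lg * bet th c1 c2 T)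
      - 3 * Psum th c1 c2 T 1 (lg * lg * bet th c1 c2 T)
      + Psum th c1 c2 T 2 (one * lg * bet th c1 c2 T)) /
    (cG T * Real.log T ^ 3)) atTop (𝓝 (m2 th c1 c2))

/-! ## Part IV: the theorem -/

/-- Number of zeros of `Z` in `(0,T]`, with multiplicity. -/
noncomputable def NZ (T : ℝ) : ℝ :=
  ∑ᶠ γ ∈ {γ : ℝ | 0 < γ ∧ γ ≤ T ∧ hardyZ γ = 0}, (zeroMult γ : ℝ)

/-- Number of distinct zeros of `Z` in `(0,T]`. -/
noncomputable def NZd (T : ℝ) : ℝ := ({γ : ℝ | 0 < γ ∧ γ ≤ T ∧ hardyZ γ = 0}.ncard : ℝ)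

/-- Number of simple zeros of `Z` in `(0,T]`. -/
noncomputable def NZs (T : ℝ) : ℝ := ({γ : ℝ | 0 < γ ∧ γ ≤ T ∧ zeroMult γ = 1}.ncard : ℝ)

/-- The final theorem (to be proved under RH from the statements above). -/
def FinalStatement : Prop := ∃ T0 : ℝ, ∀ T : ℝ, T0 ≤ T →
  0.70705 * NZ T ≤ NZs T ∧ 0.8535 * NZ T ≤ NZd T

end Pool.Agent.Lib.MP_6bc78b_nt.MS
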