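import Pool.Agent.Lib.MP_6bc78b_nt.MS.P1.Final0
import Pool.Agent.Lib.MP_6bc78b_nt.MS.P1.ZB
import Pool.Agent.Lib.MP_6bc78b_nt.MS.P1.PT
import Pool.Agent.Lib.MP_6bc78b_nt.MS.P2.Final0
import Pool.Agent.Lib.MP_6bc78b_nt.MS.P2.H14.Pvc
import Pool.Agent.Lib.MP_6bc78b_nt.MS.P2.H46.Bil
import Pool.Agent.Lib.MP_6bc78b_nt.MS.P2.H62.RGC
import Pool.Agent.Lib.MP_6bc78b_nt.MS.P2.H92.Rgm
import Pool.Agent.Lib.MP_6bc78b_nt.SW.CHB
import Pool.Agent.Lib.MP_6bc78b_nt.SW.Close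
import Pool.Agent.Lib.MP_6bc78b_nt.MS.L.Final
import Pool.Agent.Lib.MP_6bc78b_nt.MS.P3.Final
import Pool.Agent.Lib.MP_6bc78b_nt.MS.P4.Assembly

/-! Project MS: the final theorem, from Mathlib's Riemann hypothesis. -/

set_option autoImplicit false

namespace Pool.Agent.Lib.MP_6bc78b_nt.MS

/-- Part II. -/
theorem npF : NPStatement :=
  P2.np_of P2.H46.bil P2.H92.rgm P2.H62.rgc P2.H14.pvc SW.chb SW.siegel_walfisz

theorem zbF (hRH : RiemannHypothesis) : ZBStatement :=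
  P1.ZB.zb (P1.zsfF hRH) P1.edg0F P1.edg1F P1.om2F P1.tailF P1.PRIM.prim P1.LSER.lser P1.POLY.poly
    P1.omlF P1.DDF.ddf

/-- The final theorem of project MS. -/
theorem final2 (hRH : RiemannHypothesis) : Final2Statement :=
  P4.part4 (P1.znF hRH) (P1.zvF hRH) (P1.zvbF hRH) (P1.zvvF hRH) (zbF hRH) (P1.zbbF hRH)
    (P1.PT.pt hRH) npF (L.lv hRH) (L.lvb hRH) (P3.lvvF hRH)

end Pool.Agent.Lib.MP_6bc78b_nt.MS
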